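import Pool.Agent.Y425.BF6.Cor

set_option autoImplicit false

/-!
Two perfect matchings whose intersection contains no odd edge-cut, in bridgeless cubic graphs of
cutwidth at most six.

A finite graph, loops and parallel edges allowed, has the vertex set `V` and the edge set `E`; the
ends of the edge `e` are `s e` and `t e`. The cutwidth is at most six if the vertices can be placed
on a line such that at most six edges pass over each gap.
-/

open Finset

namespace Pool.Agent.Results.MP_1dc4d0_co.CutwidthSix

/-- every vertex has degree three, where a loop counts twice -/
def IsCubic {V E : Type} [DecidableEq V] [Fintype E] (s t : E → V) : Prop :=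
  ∀ v, ∑ e, ((if s e = v then 1 else 0) + (if t e = v then 1 else 0)) = 3

/-- the set of edges `M` is a perfect matching: every vertex has degree one in it -/
def IsPerfectMatching {V E : Type} [DecidableEq V] (s t : E → V) (M : Finset E) : Prop :=
  ∀ v, ∑ e ∈ M, ((if s e = v then 1 else 0) + (if t e = v then 1 else 0)) = 1

/-- the edge-cut of the set of vertices `X` -/
def cut {V E : Type} [DecidableEq V] [Fintype E] (s t : E → V) (X : Finset V) : Finset E :=
  univ.filter fun e => ¬ (s e ∈ X ↔ t e ∈ X)

/-- Let `G` be a finite cubic graph such that no set of vertices is left by exactly one edge (no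
bridges) and that the vertices can be numbered injectively by natural numbers such that for each `n`
at most six edges join a vertex with number smaller than `n` to a vertex with number at least `n`.
Then there are two perfect matchings whose intersection contains no odd edge-cut. -/
theorem result (V E : Type) [Fintype V] [DecidableEq V] [Fintype E] [DecidableEq E] (s t : E → V)
    (hc : IsCubic s t) (hbridge : ∀ Z : Finset V, (cut s t Z).card ≠ 1)
    (hwidth : ∃ f : V → ℕ, Function.Injective f ∧
      ∀ n, (univ.filter fun e => ¬ (f (s e) < n ↔ f (t e) < n)).card ≤ 6) :
    ∃ M₁ M₂ : Finset E, IsPerfectMatching s t M₁ ∧ IsPerfectMatching s t M₂ ∧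
      ∀ X : Finset V, Odd (cut s t X).card → ¬ cut s t X ⊆ M₁ ∩ M₂ :=
  Pool.Agent.Y425.BF6.Cor.two_pm (Pool.Agent.Y425.BF6.Cor.six_cw s t hbridge hwidth) hc

end Pool.Agent.Results.MP_1dc4d0_co.CutwidthSix
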